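import Mathlib
import Pool.Agent.H96.SF1

open Set MeasureTheory

namespace Pool.Agent.Results.MP_ff06a2_an.No

variable {d : ℕ}

/-- a feasible pair for the dual problem -/
def Feas (c : EuclideanSpace ℝ (Fin d) × EuclideanSpace ℝ (Fin d) → ℝ)
    (ρ μ : Measure (EuclideanSpace ℝ (Fin d))) (φ ψ : EuclideanSpace ℝ (Fin d) → ℝ) : Prop :=
  Integrable φ ρ ∧ Integrable ψ μ ∧ ∀ x y, φ x + ψ y ≤ c (x, y)

/-- a pair of Kantorovich potentials -/
def Opt (c : EuclideanSpace ℝ (Fin d) × EuclideanSpace ℝ (Fin d) → ℝ)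
    (ρ μ : Measure (EuclideanSpace ℝ (Fin d))) (φ ψ : EuclideanSpace ℝ (Fin d) → ℝ) : Prop :=
  Feas c ρ μ φ ψ ∧ ∀ φ' ψ', Feas c ρ μ φ' ψ' →
    ∫ x, φ' x ∂ρ + ∫ y, ψ' y ∂μ ≤ ∫ x, φ x ∂ρ + ∫ y, ψ y ∂μ

open Pool.Agent.H96.SF

theorem result : ∃ (d : ℕ) (ρ μ : Measure (EuclideanSpace ℝ (Fin d)))
    (c : EuclideanSpace ℝ (Fin d) × EuclideanSpace ℝ (Fin d) → ℝ)
    (a b : EuclideanSpace ℝ (Fin d) → ℝ), 1 ≤ d ∧ IsProbabilityMeasure ρ ∧ IsProbabilityMeasure μ ∧
    (∀ x y, c (x, y) = ‖x - y‖ ^ 2) ∧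
    Bornology.IsBounded μ.support ∧ ContDiff ℝ 1 c ∧ UpperSemicontinuous a ∧
    UpperSemicontinuous b ∧ Integrable a ρ ∧ Integrable b μ ∧ (∀ x y, |c (x, y)| ≤ a x + b y) ∧
    IsPathConnected ρ.support ∧ ∃ φ₀ ψ₀ φ₁ ψ₁, Opt c ρ μ φ₀ ψ₀ ∧ Opt c ρ μ φ₁ ψ₁ ∧
      ¬ ∃ l : ℝ, (∀ᵐ x ∂ρ, φ₀ x - φ₁ x = l) ∧ ∀ᵐ y ∂μ, ψ₀ y - ψ₁ y = -l := by
  let γ : unitInterval → EuclideanSpace ℝ (Fin 16) := fun t => cv t
  have hc : Continuous γ := cv_cont.comp continuous_subtype_val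
  have hl : ∀ s t : unitInterval, |(s : ℝ) - t| / 256 ≤ ‖γ s - γ t‖ ^ 2 := fun s t =>
    cv_low (abs_le.2 ⟨by linarith [s.2.1, t.2.2], by linarith [s.2.2, t.2.1]⟩)
  have hi : Function.Injective γ := fun s t e => by
    have := hl s t
    rw [e, sub_self, norm_zero] at this
    exact Subtype.ext (sub_eq_zero.1 (abs_nonpos_iff.1 (by linarith)))
  have he := (hc.isClosedEmbedding hi).measurableEmbedding
  let ρ := Measure.map γ volume
  have : IsProbabilityMeasure ρ := Measure.isProbabilityMeasure_map hc.measurable.aemeasurable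
  have hae : ∀ᵐ x ∂ρ, x ∈ range γ := ae_map_mem_range γ he.measurableSet_range _
  have hK : IsCompact (range γ) := isCompact_range hc
  have hs : ρ.support = range γ := by
    refine (Measure.support_subset_of_isClosed hK.isClosed hae).antisymm ?_
    have h1 : ∀ t ∈ Ioo (0 : ℝ) 1, cv t ∈ ρ.support := fun t ht => by
      rw [Measure.mem_support_iff_forall]
      intro U hU
      rw [he.map_apply, unitInterval.volume_apply]
      refine Measure.measure_pos_of_mem_nhds _ (Filter.mem_of_superset (Filter.inter_mem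
        (cv_cont.continuousAt hU) (Icc_mem_nhds ht.1 ht.2)) fun x hx => ⟨⟨x, hx.2⟩, hx.1, rfl⟩)
    rintro _ ⟨t, rfl⟩
    have := closure_minimal h1 (Measure.isClosed_support.preimage cv_cont)
    rw [closure_Ioo zero_ne_one] at this
    exact this t.2
  have hn : Continuous fun x : EuclideanSpace ℝ (Fin 16) => 2 * ‖x‖ ^ 2 := by fun_prop
  have hI : ∀ f : EuclideanSpace ℝ (Fin 16) → ℝ, Continuous (f ∘ γ) → Integrable f ρ := fun f hf =>
    he.integrable_map_iff.2 (hf.integrable_of_hasCompactSupport (.of_compactSpace _))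
  have up : ∀ φ ψ, Feas (fun p => ‖p.1 - p.2‖ ^ 2) ρ ρ φ ψ → ∫ x, φ x ∂ρ + ∫ y, ψ y ∂ρ ≤ 0 :=
    fun φ ψ h => by
      rw [← integral_add h.1 h.2.1]
      exact integral_nonpos fun x => by simpa using h.2.2 x x
  let φ := Function.extend γ (fun t => (t : ℝ) / 256) fun _ => -1
  let ψ := Function.extend γ (fun t => -((t : ℝ) / 256)) fun _ => -1
  have hφ : ∀ t, φ (γ t) = t / 256 := fun t => hi.extend_apply _ _ _
  have hψ : ∀ t, ψ (γ t) = -(t / 256) := fun t => hi.extend_apply _ _ _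
  have iφ : Integrable φ ρ := hI _ (by rw [show φ ∘ γ = _ from funext hφ]; fun_prop)
  have iψ : Integrable ψ ρ := hI _ (by rw [show ψ ∘ γ = _ from funext hψ]; fun_prop)
  have hpc : PathConnectedSpace unitInterval := isPathConnected_iff_pathConnectedSpace.1
    ((convex_Icc (0 : ℝ) 1).isPathConnected (nonempty_Icc.2 zero_le_one))
  refine ⟨16, ρ, ρ, fun p => ‖p.1 - p.2‖ ^ 2, _, _, by norm_num, this, this, fun _ _ => rfl,
    hs ▸ hK.isBounded, (contDiff_fst.sub contDiff_snd).norm_sq ℝ, hn.upperSemicontinuous,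
    hn.upperSemicontinuous, hI _ (hn.comp hc), hI _ (hn.comp hc), fun x y => ?_,
    hs ▸ isPathConnected_range hc, 0, 0, φ, ψ, ⟨⟨integrable_zero _ _ _, integrable_zero _ _ _,
      fun x y => by simp⟩, fun φ ψ h => by simpa using up φ ψ h⟩,
    ⟨⟨iφ, iψ, fun x y => ?_⟩, fun φ' ψ' h => (up φ' ψ' h).trans ?_⟩, ?_⟩
  · rw [abs_of_nonneg (sq_nonneg _)]
    have := pow_le_pow_left₀ (norm_nonneg _) (norm_sub_le x y) 2
    nlinarith [sq_nonneg (‖x‖ - ‖y‖)]
  · have h0 := sq_nonneg ‖x - y‖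
    by_cases hx : ∃ s, γ s = x
    · obtain ⟨s, rfl⟩ := hx
      by_cases hy : ∃ t, γ t = y
      · obtain ⟨t, rfl⟩ := hy
        rw [hφ, hψ]
        linarith [hl s t, le_abs_self ((s : ℝ) - t)]
      · simp only [hφ, ψ, Function.extend_apply' _ _ _ hy]
        linarith [s.2.2]
    · simp only [φ, Function.extend_apply' _ _ _ hx]
      by_cases hy : ∃ t, γ t = y
      · obtain ⟨t, rfl⟩ := hy
        rw [hψ]
        linarith [t.2.1]
      · simp only [ψ, Function.extend_apply' _ _ _ hy]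
        linarith
  · rw [← integral_add iφ iψ, he.integral_map]
    simp [hφ, hψ]
  · rintro ⟨l, h, -⟩
    have h1 := ae_of_ae_map hc.measurable.aemeasurable h
    have h2 : ({t | (0 : EuclideanSpace ℝ (Fin 16) → ℝ) (γ t) - φ (γ t) = l} :
        Set unitInterval).Subsingleton := fun s hs t ht => by
      simp only [mem_ofPred_eq, hφ, Pi.zero_apply] at hs ht
      exact Subtype.ext (by linarith)
    obtain ⟨t, ht, ht'⟩ := (h1.and (measure_eq_zero_iff_ae_notMem.1 (h2.measure_zero volume))).exists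
    exact ht' ht

end Pool.Agent.Results.MP_ff06a2_an.No
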